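import Pool.Agent.H95.Fock2

set_option autoImplicit false

open Pool.Agent.H95.Fock ComplexConjugate

namespace Pool.Agent.Results.MP_d26497_an.NotCompact

theorem result : ∃ (H : Type) (_ : NormedAddCommGroup H) (_ : InnerProductSpace ℂ H)
    (_ : CompleteSpace H) (J : H → ℂ × ℂ → ℂ), IsFock J ∧
    CompactResolvent (closure (graphT J fun p => p.1 * conj p.1 * (p.2 * conj p.2))) ∧
    ¬ CompactResolvent
      (closure (graphT J fun p => p.1 * conj p.1 * (p.2 * conj p.2) + -(p.1 * conj p.1))) :=
  main'

end Pool.Agent.Results.MP_d26497_an.NotCompact
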